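import Pool.Agent.MP_e1dc65_gt.Asm
import Pool.Agent.MP_e1dc65_gt.a.Main
import Pool.Agent.MP_e1dc65_gt.b.Ori
import Pool.Agent.MP_e1dc65_gt.b.Refl
import Pool.Agent.MP_e1dc65_gt.e.Main
import Pool.Agent.MP_e1dc65_gt.k.SpinCover
import Pool.Agent.MP_e1dc65_gt.o.Main
import Pool.Agent.MP_e1dc65_gt.t.Main

/-! A pair of closed orientable smooth 4-manifolds that are topologically but not smoothly
h-cobordant. -/

open Pool.Agent.MP_e1dc65_gt

theorem Pool.Agent.Results.MP_e1dc65_gt.OrientablePair.result :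
    ∃ M N : Closed4, M.Orientable ∧ N.Orientable ∧ TopHCob M N ∧ ¬SmoothHCob M N :=
  assemble spinCover partE partT (partO sig dirac) ori
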